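import Mathlib

set_option autoImplicit false

/-! # A pointwise inequality for functions vanishing at the centre of a disc -/

namespace Pool.Agent.W5h47.QC

open Complex Metric Set Filter Topology MeasureTheory

/-- Cauchy's formula as an inequality in `L¹` of the circle. -/
theorem cauchy_L1 {G : ℂ → ℂ} (hG : DifferentiableOn ℂ G (ball 0 1)) {k ρ : ℝ} (hk : 0 ≤ k)
    (hkρ : k < ρ) (hρ : ρ < 1) {l : ℂ} (hl : ‖l‖ ≤ k) :
    ‖G l‖ ≤ ρ / (ρ - k) * ((1 / (2 * Real.pi)) *
      ∫ s in (0 : ℝ)..(2 * Real.pi), ‖G (circleMap 0 ρ s)‖) := by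
  have hρ0 : 0 < ρ := hk.trans_lt hkρ
  have hsub : closedBall (0 : ℂ) ρ ⊆ ball 0 1 := closedBall_subset_ball hρ
  have hd : DiffContOnCl ℂ G (ball 0 ρ) := by
    apply (hG.mono hsub).diffContOnCl_ball (Subset.refl _)
  have hlm : l ∈ ball (0 : ℂ) ρ := mem_ball_zero_iff.2 (hl.trans_lt hkρ)
  have h1 := hd.circleIntegral_sub_inv_smul hlm
  have h2 : ‖G l‖ = (1 / (2 * Real.pi)) * ‖∮ z in C(0, ρ), (z - l)⁻¹ • G z‖ := by
    rw [h1, norm_smul, norm_mul, norm_mul, Complex.norm_I, Complex.norm_ofNat, Complex.norm_real,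
      Real.norm_of_nonneg Real.pi_pos.le]
    have := Real.pi_pos
    field_simp
  have hmem : ∀ s : ℝ, circleMap 0 ρ s ∈ closedBall (0 : ℂ) ρ := fun s =>
    circleMap_mem_closedBall 0 hρ0.le s
  have hcont : Continuous fun s : ℝ => G (circleMap 0 ρ s) := by
    rw [continuous_iff_continuousAt]
    intro s
    have : ContinuousAt G (circleMap 0 ρ s) :=
      (hG.differentiableAt (isOpen_ball.mem_nhds (hsub (hmem s)))).continuousAt
    exact this.comp (f := fun s : ℝ => circleMap 0 ρ s) (continuous_circleMap 0 ρ).continuousAt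
  have h3 : ‖∮ z in C(0, ρ), (z - l)⁻¹ • G z‖ ≤
      ∫ s in (0 : ℝ)..(2 * Real.pi), ρ / (ρ - k) * ‖G (circleMap 0 ρ s)‖ := by
    unfold circleIntegral
    refine (intervalIntegral.norm_integral_le_integral_norm (by positivity)).trans ?_
    apply intervalIntegral.integral_mono_on (by positivity)
    · apply Continuous.intervalIntegrable
      apply Continuous.norm
      have hc1 : Continuous fun s : ℝ => deriv (circleMap 0 ρ) s := by
        simp only [deriv_circleMap]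
        exact (continuous_circleMap 0 ρ).mul continuous_const
      apply hc1.smul
      have hc2 : Continuous fun s : ℝ => (circleMap 0 ρ s - l)⁻¹ := by
        apply Continuous.inv₀
        · exact (continuous_circleMap 0 ρ).sub continuous_const
        · intro s h
          have h5 : circleMap 0 ρ s = l := sub_eq_zero.1 h
          have h6 : ‖circleMap 0 ρ s‖ = ρ := by rw [norm_circleMap_zero, abs_of_pos hρ0]
          rw [h5] at h6
          linarith
      exact hc2.smul hcont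
    · exact (hcont.norm.const_mul _).intervalIntegrable _ _
    · intro s _
      rw [norm_smul, norm_smul, deriv_circleMap, norm_mul, Complex.norm_I, mul_one,
        norm_circleMap_zero, abs_of_pos hρ0, norm_inv]
      have h6 : ‖circleMap 0 ρ s‖ = ρ := by rw [norm_circleMap_zero, abs_of_pos hρ0]
      have h7 : ρ - k ≤ ‖circleMap 0 ρ s - l‖ := by
        have := norm_sub_norm_le (circleMap 0 ρ s) l
        rw [h6] at this
        linarith
      have h8 : ‖circleMap 0 ρ s - l‖⁻¹ ≤ (ρ - k)⁻¹ := by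
        apply inv_anti₀ (by linarith) h7
      rw [← mul_assoc, div_eq_mul_inv]
      apply mul_le_mul_of_nonneg_right _ (norm_nonneg _)
      exact mul_le_mul_of_nonneg_left h8 hρ0.le
  rw [intervalIntegral.integral_const_mul] at h3
  rw [h2]
  calc (1 / (2 * Real.pi)) * ‖∮ z in C(0, ρ), (z - l)⁻¹ • G z‖
      ≤ (1 / (2 * Real.pi)) * (ρ / (ρ - k) *
        ∫ s in (0 : ℝ)..(2 * Real.pi), ‖G (circleMap 0 ρ s)‖) :=
        mul_le_mul_of_nonneg_left h3 (by positivity)
    _ = _ := by ring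

theorem circ_cont {f : ℂ → ℂ} (hf : DifferentiableOn ℂ f (ball 0 1)) {ρ : ℝ} (hρ0 : 0 < ρ)
    (hρ : ρ < 1) : Continuous fun s : ℝ => f (circleMap 0 ρ s) := by
  rw [continuous_iff_continuousAt]
  intro s
  have hsub : closedBall (0 : ℂ) ρ ⊆ ball 0 1 := closedBall_subset_ball hρ
  have : ContinuousAt f (circleMap 0 ρ s) :=
    (hf.differentiableAt (isOpen_ball.mem_nhds (hsub (circleMap_mem_closedBall 0 hρ0.le s)))).continuousAt
  exact this.comp (f := fun s : ℝ => circleMap 0 ρ s) (continuous_circleMap 0 ρ).continuousAt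

/-- The powers of a function vanishing at the centre. -/
theorem power_ineq {f : ℂ → ℂ} (hf : DifferentiableOn ℂ f (ball 0 1)) (hf0 : f 0 = 0) {k ρ : ℝ}
    (hk : 0 ≤ k) (hkρ : k < ρ) (hρ : ρ < 1) {l : ℂ} (hl : ‖l‖ ≤ k) (n : ℕ) :
    (‖f l‖ ^ 2) ^ n ≤ ρ / (ρ - k) * ((1 / (2 * Real.pi)) *
      ∫ s in (0 : ℝ)..(2 * Real.pi), ((k / ρ) ^ 2 * ‖f (circleMap 0 ρ s)‖ ^ 2) ^ n) := by
  have hρ0 : 0 < ρ := hk.trans_lt hkρ
  have h0m : (0 : ℂ) ∈ ball (0 : ℂ) 1 := mem_ball_self one_pos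
  have hg : DifferentiableOn ℂ (dslope f 0) (ball 0 1) :=
    (Complex.differentiableOn_dslope (isOpen_ball.mem_nhds h0m)).2 hf
  have h1 := cauchy_L1 (G := fun z => (dslope f 0 z) ^ (2 * n)) (hg.pow (2 * n)) hk hkρ hρ hl
  have hfe : ∀ z, f z = z * dslope f 0 z := by
    intro z
    have := sub_smul_dslope f 0 z
    rw [hf0, sub_zero, sub_zero, smul_eq_mul] at this
    exact this.symm
  have e1 : ∀ s : ℝ, ‖(dslope f 0 (circleMap 0 ρ s)) ^ (2 * n)‖ =
      (‖f (circleMap 0 ρ s)‖ ^ 2 / ρ ^ 2) ^ n := by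
    intro s
    have h6 : ‖circleMap 0 ρ s‖ = ρ := by rw [norm_circleMap_zero, abs_of_pos hρ0]
    rw [hfe (circleMap 0 ρ s), norm_mul, h6, norm_pow, pow_mul]
    congr 1
    field_simp
  simp only [e1] at h1
  have e2 : (‖f l‖ ^ 2) ^ n ≤ (k ^ 2) ^ n * ‖(dslope f 0 l) ^ (2 * n)‖ := by
    rw [hfe l, norm_mul, norm_pow, pow_mul, ← mul_pow, mul_pow]
    apply pow_le_pow_left₀ (by positivity)
    apply mul_le_mul_of_nonneg_right _ (sq_nonneg _)
    exact pow_le_pow_left₀ (norm_nonneg _) hl 2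
  refine e2.trans ((mul_le_mul_of_nonneg_left h1 (by positivity)).trans (le_of_eq ?_))
  have e3 : ∀ s : ℝ, ((k / ρ) ^ 2 * ‖f (circleMap 0 ρ s)‖ ^ 2) ^ n =
      (k ^ 2) ^ n * (‖f (circleMap 0 ρ s)‖ ^ 2 / ρ ^ 2) ^ n := by
    intro s
    rw [← mul_pow]
    rw [div_pow]
    ring
  simp only [e3]
  rw [intervalIntegral.integral_const_mul]
  ring

/-- The exponential inequality. -/
theorem exp_ineq {f : ℂ → ℂ} (hf : DifferentiableOn ℂ f (ball 0 1)) (hf0 : f 0 = 0) {k ρ c : ℝ}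
    (hk : 0 ≤ k) (hkρ : k < ρ) (hρ : ρ < 1) (hc : 0 ≤ c) {l : ℂ} (hl : ‖l‖ ≤ k) :
    Real.exp (c * ‖f l‖ ^ 2) ≤ ρ / (ρ - k) * ((1 / (2 * Real.pi)) *
      ∫ s in (0 : ℝ)..(2 * Real.pi), Real.exp (c * (k / ρ) ^ 2 * ‖f (circleMap 0 ρ s)‖ ^ 2)) := by
  have hρ0 : 0 < ρ := hk.trans_lt hkρ
  have hfc := circ_cont hf hρ0 hρ
  have hc1 : Continuous fun s : ℝ => c * (k / ρ) ^ 2 * ‖f (circleMap 0 ρ s)‖ ^ 2 :=
    (hfc.norm.pow 2).const_mul _
  have hsum := (NormedSpace.expSeries_div_hasSum_exp (c * ‖f l‖ ^ 2)).tendsto_sum_nat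
  rw [← Real.exp_eq_exp_ℝ] at hsum
  refine le_of_tendsto' hsum fun N => ?_
  have h1 : ∀ n ∈ Finset.range N, (c * ‖f l‖ ^ 2) ^ n / (n.factorial : ℝ) ≤
      ρ / (ρ - k) * ((1 / (2 * Real.pi)) * ∫ s in (0 : ℝ)..(2 * Real.pi),
        (c * (k / ρ) ^ 2 * ‖f (circleMap 0 ρ s)‖ ^ 2) ^ n / (n.factorial : ℝ)) := by
    intro n _
    have h2 := power_ineq hf hf0 hk hkρ hρ hl n
    have h3 := mul_le_mul_of_nonneg_left h2 (show 0 ≤ c ^ n / (n.factorial : ℝ) by positivity)
    calc (c * ‖f l‖ ^ 2) ^ n / (n.factorial : ℝ) = c ^ n / (n.factorial : ℝ) * (‖f l‖ ^ 2) ^ n := by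
          rw [mul_pow]; ring
      _ ≤ _ := h3
      _ = _ := by
          have e3 : ∀ s : ℝ, (c * (k / ρ) ^ 2 * ‖f (circleMap 0 ρ s)‖ ^ 2) ^ n / (n.factorial : ℝ) =
              c ^ n / (n.factorial : ℝ) * ((k / ρ) ^ 2 * ‖f (circleMap 0 ρ s)‖ ^ 2) ^ n := by
            intro s
            rw [mul_assoc, mul_pow]
            ring
          simp only [e3]
          rw [intervalIntegral.integral_const_mul]
          ring
  refine (Finset.sum_le_sum h1).trans ?_
  rw [← Finset.mul_sum, ← Finset.mul_sum]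
  have hK : 0 ≤ ρ / (ρ - k) := div_nonneg hρ0.le (by linarith)
  apply mul_le_mul_of_nonneg_left _ hK
  apply mul_le_mul_of_nonneg_left _ (by positivity)
  rw [← intervalIntegral.integral_finsetSum]
  · apply intervalIntegral.integral_mono_on (by positivity)
    · apply Continuous.intervalIntegrable
      exact continuous_finsetSum _ fun n _ => (hc1.pow n).div_const _
    · apply Continuous.intervalIntegrable
      exact Real.continuous_exp.comp hc1
    · intro s _
      exact Real.sum_le_exp_of_nonneg (by positivity) N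
  · intro n _
    apply Continuous.intervalIntegrable
    exact (hc1.pow n).div_const _

end Pool.Agent.W5h47.QC
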