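import Pool.Agent.W5h47.QC.A
import Pool.Agent.W5h41.MA14
import Pool.Agent.R250.MC4

set_option autoImplicit false

/-! # Holomorphic families in `Σ`: the logarithm of the derivative as a function of the parameter -/

namespace Pool.Agent.W5h47.QC

open Complex Metric Set Filter Topology MeasureTheory
open Pool.Agent.W677.Mar Pool.Agent.R250.MC

theorem deriv_le {Y H : ℂ → ℂ} (S : Sg Y H) {r : ℝ} (hr : r < 1) {v : ℂ} (hv : ‖v‖ ≤ r) :
    ‖deriv H v‖ ≤ 6 / (1 - r ^ 2) := by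
  have hr0 : 0 ≤ r := (norm_nonneg v).trans hv
  have h1r : 0 < 1 - r ^ 2 := by nlinarith
  have key : ∀ w : ℂ, w ∈ ball (0 : ℂ) 1 → w ≠ 0 → ‖deriv H w‖ ≤ 6 / (1 - ‖w‖ ^ 2) := by
    intro w hw hw0
    have hn : ‖w‖ < 1 := mem_ball_zero_iff.1 hw
    have h1 := deriv_bound S hw
    have h2 : 0 < 1 - ‖w‖ ^ 2 := by nlinarith [norm_nonneg w]
    have h3 : 0 < ‖w‖ := norm_pos_iff.2 hw0
    rw [norm_mul, norm_mul, Complex.norm_real, Real.norm_of_nonneg h2.le] at h1
    rw [le_div_iff₀ h2]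
    have h4 : ‖w‖ * (‖deriv H w‖ * (1 - ‖w‖ ^ 2)) ≤ ‖w‖ * 6 := by nlinarith
    exact le_of_mul_le_mul_left h4 h3
  have hcont : ContinuousOn (deriv H) (ball 0 1) := (S.dH.deriv isOpen_ball).continuousOn
  have h6 : ∀ w : ℂ, w ∈ ball (0 : ℂ) 1 → ‖deriv H w‖ ≤ 6 / (1 - ‖w‖ ^ 2) := by
    intro w hw
    by_cases hw0 : w = 0
    · rw [hw0]
      have h00 : (0 : ℂ) ∈ ball (0 : ℂ) 1 := mem_ball_self one_pos
      have h1 : ContinuousAt (deriv H) 0 := hcont.continuousAt (isOpen_ball.mem_nhds h00)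
      have h2 : Tendsto (fun w => ‖deriv H w‖) (𝓝[≠] (0 : ℂ)) (𝓝 ‖deriv H 0‖) :=
        h1.norm.tendsto.mono_left nhdsWithin_le_nhds
      have h3 : Tendsto (fun w : ℂ => 6 / (1 - ‖w‖ ^ 2)) (𝓝[≠] (0 : ℂ)) (𝓝 (6 / (1 - ‖(0 : ℂ)‖ ^ 2))) := by
        have : ContinuousAt (fun w : ℂ => 6 / (1 - ‖w‖ ^ 2)) 0 := by
          apply ContinuousAt.div continuousAt_const (by fun_prop)
          simp
        exact this.tendsto.mono_left nhdsWithin_le_nhds
      refine le_of_tendsto_of_tendsto h2 h3 ?_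
      filter_upwards [self_mem_nhdsWithin, nhdsWithin_le_nhds (isOpen_ball.mem_nhds h00)] with x hx hxb
      exact key x hxb hx
    · exact key w hw hw0
  refine (h6 v (mem_ball_zero_iff.2 (hv.trans_lt hr))).trans ?_
  apply div_le_div_of_nonneg_left (by norm_num) h1r
  nlinarith [norm_nonneg v]

theorem lip {Y H : ℂ → ℂ} (S : Sg Y H) {r : ℝ} (hr : r < 1) {v w : ℂ} (hv : ‖v‖ ≤ r)
    (hw : ‖w‖ ≤ r) : ‖H v - H w‖ ≤ 6 / (1 - r ^ 2) * ‖v - w‖ := by
  apply (convex_closedBall (0 : ℂ) r).norm_image_sub_le_of_norm_deriv_le (𝕜 := ℂ) (f := H)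
    (C := 6 / (1 - r ^ 2)) (x := w) (y := v)
  · intro x hx
    exact S.dH.differentiableAt (isOpen_ball.mem_nhds (closedBall_subset_ball hr hx))
  · intro x hx
    exact deriv_le S hr (mem_closedBall_zero_iff.1 hx)
  · exact mem_closedBall_zero_iff.2 hw
  · exact mem_closedBall_zero_iff.2 hv

/-- the exponential of the logarithm is holomorphic in the parameter -/
theorem exp_param {ψ h : ℂ → ℂ → ℂ} (F : Fam ψ h) {v : ℂ} (hv : v ∈ ball (0 : ℂ) 1) :
    DifferentiableOn ℂ (fun s => Complex.exp (hat (h s) 0 v)) (ball 0 1) := by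
  by_cases hv0 : v = 0
  · simp only [hv0, hat_zero]
    exact differentiableOn_const _
  · refine (F.d1 (inv_ext hv hv0)).congr fun s hs => ?_
    rw [hat_ne _ _ hv0]
    exact (F.1 s (mem_ball_zero_iff.1 hs)).2.2.2.2.1 _ (inv_ext hv hv0)

/-- the logarithm is holomorphic in the parameter -/
theorem hol_param {ψ h : ℂ → ℂ → ℂ} (F : Fam ψ h) {v : ℂ} (hv : v ∈ ball (0 : ℂ) 1) :
    DifferentiableOn ℂ (fun s => hat (h s) 0 v) (ball 0 1) := by
  obtain ⟨r, hr⟩ : ∃ r, r = ‖v‖ := ⟨_, rfl⟩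
  have hr1 : r < 1 := by rw [hr]; exact mem_ball_zero_iff.1 hv
  have hr0 : 0 ≤ r := by rw [hr]; exact norm_nonneg v
  have h1r : 0 < 1 - r ^ 2 := by nlinarith
  obtain ⟨M, hM⟩ : ∃ M, M = 6 / (1 - r ^ 2) := ⟨_, rfl⟩
  have hM0 : 0 < M := by rw [hM]; positivity
  have key : ∀ n : ℕ, ∀ w : ℂ, ‖w‖ ≤ r → M * ‖w‖ ≤ n →
      DifferentiableOn ℂ (fun s => hat (h s) 0 w) (ball 0 1) := by
    intro n
    induction n with
    | zero =>
      intro w _ h2
      have h3 : w = 0 := by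
        rw [← norm_le_zero_iff]
        rw [Nat.cast_zero] at h2
        nlinarith [norm_nonneg w]
      simp only [h3, hat_zero]
      exact differentiableOn_const _
    | succ n ih =>
      intro w h1 h2
      have hn : (0 : ℝ) < (n : ℝ) + 1 := by positivity
      obtain ⟨τ, hτ⟩ : ∃ τ : ℝ, τ = n / (n + 1) := ⟨_, rfl⟩
      have hτ0 : 0 ≤ τ := by rw [hτ]; positivity
      have hτ1 : τ ≤ 1 := by rw [hτ, div_le_one hn]; linarith
      obtain ⟨w', hw'⟩ : ∃ w' : ℂ, w' = (τ : ℂ) * w := ⟨_, rfl⟩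
      have hw'n : ‖w'‖ = τ * ‖w‖ := by
        rw [hw', norm_mul, Complex.norm_real, Real.norm_of_nonneg hτ0]
      have h3 : ‖w'‖ ≤ r := by rw [hw'n]; nlinarith [norm_nonneg w]
      have h4 : M * ‖w'‖ ≤ n := by
        rw [hw'n]
        push_cast at h2
        calc M * (τ * ‖w‖) = τ * (M * ‖w‖) := by ring
          _ ≤ τ * (n + 1) := mul_le_mul_of_nonneg_left h2 hτ0
          _ = n := by rw [hτ]; field_simp
      have h5 := ih w' h3 h4
      have hwb : w ∈ ball (0 : ℂ) 1 := mem_ball_zero_iff.2 (h1.trans_lt hr1)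
      have hwb' : w' ∈ ball (0 : ℂ) 1 := mem_ball_zero_iff.2 (h3.trans_lt hr1)
      have h6 : ‖w - w'‖ * M ≤ 1 := by
        have e : w - w' = ((1 - τ : ℝ) : ℂ) * w := by rw [hw']; push_cast; ring
        rw [e, norm_mul, Complex.norm_real, Real.norm_of_nonneg (by linarith)]
        have e2 : 1 - τ = 1 / (n + 1) := by rw [hτ]; field_simp; ring
        rw [e2]
        push_cast at h2
        calc 1 / ((n : ℝ) + 1) * ‖w‖ * M = (M * ‖w‖) / (n + 1) := by ring
          _ ≤ (n + 1) / (n + 1) := by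
              apply div_le_div_of_nonneg_right h2 hn.le
          _ = 1 := div_self hn.ne'
      have h7 : ∀ s ∈ ball (0 : ℂ) 1, ‖hat (h s) 0 w - hat (h s) 0 w'‖ ≤ 1 := by
        intro s hs
        have := lip (F.1 s (mem_ball_zero_iff.1 hs)).sg hr1 h1 h3
        rw [← hM] at this
        linarith
      have hE : ∀ s ∈ ball (0 : ℂ) 1, Complex.exp (hat (h s) 0 w) / Complex.exp (hat (h s) 0 w') =
          Complex.exp (hat (h s) 0 w - hat (h s) 0 w') := by
        intro s _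
        rw [Complex.exp_sub]
      have h8 : DifferentiableOn ℂ (fun s => hat (h s) 0 w' +
          Complex.log (Complex.exp (hat (h s) 0 w) / Complex.exp (hat (h s) 0 w'))) (ball 0 1) := by
        apply h5.add
        apply DifferentiableOn.clog ((exp_param F hwb).div (exp_param F hwb') fun s _ =>
          Complex.exp_ne_zero _)
        intro s hs
        show Complex.exp (hat (h s) 0 w) / Complex.exp (hat (h s) 0 w') ∈ slitPlane
        rw [hE s hs, Complex.mem_slitPlane_iff]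
        left
        rw [Complex.exp_re]
        apply mul_pos (Real.exp_pos _)
        have h9 := (Complex.abs_im_le_norm _).trans (h7 s hs)
        apply Real.cos_pos_of_mem_Ioo
        have := Real.pi_gt_three
        exact ⟨by linarith [(abs_le.1 h9).1], by linarith [(abs_le.1 h9).2]⟩
      refine h8.congr fun s hs => ?_
      rw [hE s hs, Complex.log_exp]
      · ring
      · have h9 := (Complex.abs_im_le_norm _).trans (h7 s hs)
        have := Real.pi_gt_three
        linarith [(abs_le.1 h9).1]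
      · have h9 := (Complex.abs_im_le_norm _).trans (h7 s hs)
        have := Real.pi_gt_three
        linarith [(abs_le.1 h9).2]
  obtain ⟨n, hn⟩ := exists_nat_ge (M * ‖v‖)
  exact key n v hr.ge hn

/-- the logarithm vanishes at the parameter `0` -/
theorem param_zero {ψ h : ℂ → ℂ → ℂ} (F : Fam ψ h) {v : ℂ} (hv : v ∈ ball (0 : ℂ) 1) :
    hat (h 0) 0 v = 0 := by
  have S := F.1 0 (by simp)
  have hn : ‖v‖ < 1 := mem_ball_zero_iff.1 hv
  by_cases hv0 : v = 0
  · rw [hv0, hat_zero]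
  -- along the ray
  have hH := hat_diff S.hol
  have hd : ∀ w ∈ ball (0 : ℂ) 1, w ≠ 0 → deriv (hat (h 0) 0) w = 0 := by
    intro w hw hw0
    have h1 := hat_deriv S.hol hw hw0
    rw [F.h0 (inv_ext hw hw0), mul_zero, neg_zero] at h1
    rcases mul_eq_zero.1 h1 with h2 | h2
    · exact absurd h2 hw0
    · exact h2
  have hd0 : deriv (hat (h 0) 0) 0 = 0 := by
    have h00 : (0 : ℂ) ∈ ball (0 : ℂ) 1 := mem_ball_self one_pos
    have hcont : ContinuousAt (deriv (hat (h 0) 0)) 0 :=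
      ((hH.deriv isOpen_ball).continuousOn.continuousAt (isOpen_ball.mem_nhds h00))
    have h2 : Tendsto (deriv (hat (h 0) 0)) (𝓝[≠] 0) (𝓝 (deriv (hat (h 0) 0) 0)) :=
      hcont.tendsto.mono_left nhdsWithin_le_nhds
    refine tendsto_nhds_unique h2 ?_
    refine tendsto_const_nhds.congr' ?_
    filter_upwards [self_mem_nhdsWithin, nhdsWithin_le_nhds (isOpen_ball.mem_nhds h00)] with x hx hxb
    exact (hd x hxb hx).symm
  have h1 := (convex_ball (0 : ℂ) 1).norm_image_sub_le_of_norm_deriv_le (𝕜 := ℂ)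
    (f := hat (h 0) 0) (C := 0) (x := 0) (y := v)
    (fun y hy => hH.differentiableAt (isOpen_ball.mem_nhds hy))
    (fun y hy => by
      by_cases hy0 : y = 0
      · rw [hy0, hd0, norm_zero]
      · rw [hd y hy hy0, norm_zero]) (mem_ball_self one_pos) hv
  rw [zero_mul, hat_zero, sub_zero] at h1
  exact norm_le_zero_iff.1 h1

/-- joint continuity on a torus -/
theorem joint {ψ h : ℂ → ℂ → ℂ} (F : Fam ψ h) {r ρ : ℝ} (hr0 : 0 < r) (hr1 : r < 1)
    (hρ0 : 0 < ρ) (hρ1 : ρ < 1) :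
    Continuous (fun p : ℝ × ℝ => hat (h (circleMap 0 ρ p.2)) 0 (pt r p.1)) := by
  have hl : ∀ t : ℝ, ‖circleMap 0 ρ t‖ < 1 := fun t => by
    rw [norm_circleMap_zero, abs_of_pos hρ0]; exact hρ1
  have hpt : ∀ x : ℝ, ‖pt r x‖ ≤ r := fun x => (norm_pt r x hr0.le).le
  have h1r : 0 < 1 - r ^ 2 := by nlinarith
  refine continuous_prod_of_continuous_lipschitzWith
    (fun p : ℝ × ℝ => hat (h (circleMap 0 ρ p.2)) 0 (pt r p.1)) (Real.toNNReal (6 / (1 - r ^ 2) * r))
    ?_ ?_
  · intro x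
    exact circ_cont (f := fun s => hat (h s) 0 (pt r x))
      (hol_param F (mem_ball_zero_iff.2 ((hpt x).trans_lt hr1))) hρ0 hρ1
  · intro t
    apply LipschitzWith.of_dist_le_mul
    intro x y
    rw [Real.coe_toNNReal _ (by positivity), dist_eq_norm_sub]
    refine (lip (F.1 _ (hl t)).sg hr1 (hpt x) (hpt y)).trans ?_
    rw [mul_assoc]
    apply mul_le_mul_of_nonneg_left _ (by positivity)
    have h1 := (lipschitzWith_circleMap 0 r).dist_le_mul x y
    rw [dist_eq_norm_sub] at h1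
    have h2 : ((Real.nnabs r : NNReal) : ℝ) = r := by
      rw [Real.coe_nnabs, abs_of_pos hr0]
    rw [h2] at h1
    exact h1

end Pool.Agent.W5h47.QC
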