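import Pool.Agent.W5h47.QC.B

set_option autoImplicit false

/-! # The bound in holomorphic families -/

namespace Pool.Agent.W5h47.QC

open Complex Metric Set Filter Topology MeasureTheory
open Pool.Agent.W677.Mar Pool.Agent.R250.MC

theorem family {a k : ℝ} (ha : 0 < a) (hk0 : 0 < k) (hk1 : k < 1) (hak : 16 * a * k ^ 2 < 3) :
    ∃ C : ℝ, ∀ (R : ℝ) (ψ h : ℂ → ℂ → ℂ) (s : ℂ), 1 < R → Fam ψ h → ‖s‖ ≤ k →
      ∫ x in (0 : ℝ)..(2 * Real.pi), Real.exp (a * ‖hat (h s) 0 (pt R⁻¹ x)‖ ^ 2 / lam (R⁻¹ ^ 2)) ≤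
        C := by
  have hpi := Real.pi_pos
  -- the radius in the parameter
  obtain ⟨ρ, hρm, hρ1⟩ : ∃ ρ : ℝ, max k (Real.sqrt (16 * a * k ^ 2 / 3)) < ρ ∧ ρ < 1 := by
    apply exists_between
    apply max_lt hk1
    rw [Real.sqrt_lt' one_pos]
    linarith
  have hkρ : k < ρ := (le_max_left _ _).trans_lt hρm
  have hρ0 : 0 < ρ := hk0.trans hkρ
  have hρ2 : 16 * a * k ^ 2 / 3 < ρ ^ 2 := by
    have h1 := (le_max_right k (Real.sqrt (16 * a * k ^ 2 / 3))).trans_lt hρm
    exact (Real.sqrt_lt' hρ0).1 h1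
  have ha' : a * (k / ρ) ^ 2 < 3 / 16 := by
    rw [div_pow, ← mul_div_assoc, div_lt_iff₀ (by positivity)]
    linarith
  have ha0 : 0 < a * (k / ρ) ^ 2 := by positivity
  obtain ⟨C, hC⟩ := Pool.Agent.W5h41.MA.universal ha0 ha'
  refine ⟨ρ / (ρ - k) * C, fun R ψ h s hR F hs => ?_⟩
  obtain ⟨r, hr⟩ : ∃ r, r = R⁻¹ := ⟨_, rfl⟩
  have hr0 : 0 < r := by rw [hr]; positivity
  have hr1 : r < 1 := by rw [hr]; exact inv_lt_one_of_one_lt₀ hR
  rw [← hr]
  have hlam : 0 < lam (r ^ 2) := by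
    rw [hr, lam_R hR]
    exact L_pos hR
  have hK : 0 ≤ ρ / (ρ - k) := div_nonneg hρ0.le (by linarith)
  have hpt : ∀ x : ℝ, pt r x ∈ ball (0 : ℂ) 1 := fun x => by
    rw [mem_ball_zero_iff, norm_pt r x hr0.le]
    exact hr1
  have hl : ∀ t : ℝ, ‖circleMap 0 ρ t‖ < 1 := fun t => by
    rw [norm_circleMap_zero, abs_of_pos hρ0]; exact hρ1
  -- the two-variable function
  obtain ⟨Φ, hΦ⟩ : ∃ Φ : ℝ → ℝ → ℝ, Φ = fun x t =>
      Real.exp (a / lam (r ^ 2) * (k / ρ) ^ 2 * ‖hat (h (circleMap 0 ρ t)) 0 (pt r x)‖ ^ 2) :=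
    ⟨_, rfl⟩
  have hcont : Continuous (Function.uncurry Φ) := by
    rw [hΦ]
    exact Real.continuous_exp.comp (((joint F hr0 hr1 hρ0 hρ1).norm.pow 2).const_mul _)
  have hpw : ∀ x : ℝ, Real.exp (a * ‖hat (h s) 0 (pt r x)‖ ^ 2 / lam (r ^ 2)) ≤
      ρ / (ρ - k) * ((1 / (2 * Real.pi)) * ∫ t in (0 : ℝ)..(2 * Real.pi), Φ x t) := by
    intro x
    have h1 := exp_ineq (f := fun l => hat (h l) 0 (pt r x)) (hol_param F (hpt x))
      (param_zero F (hpt x)) hk0.le hkρ hρ1 (c := a / lam (r ^ 2)) (by positivity) hs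
    rw [hΦ]
    refine (le_of_eq ?_).trans h1
    congr 1
    ring
  have hsc : Continuous fun x : ℝ => Real.exp (a * ‖hat (h s) 0 (pt r x)‖ ^ 2 / lam (r ^ 2)) := by
    have h1 : Continuous fun x : ℝ => hat (h s) 0 (pt r x) := by
      have S := (F.1 s (hs.trans_lt hk1)).sg
      rw [continuous_iff_continuousAt]
      intro x
      have h2 : ContinuousAt (hat (h s) 0) (pt r x) :=
        (S.dH.differentiableAt (isOpen_ball.mem_nhds (hpt x))).continuousAt
      exact h2.comp (f := fun x : ℝ => pt r x) (continuous_circleMap 0 r).continuousAt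
    exact Real.continuous_exp.comp (((h1.norm.pow 2).const_mul _).div_const _)
  have hin : Continuous fun x : ℝ => ∫ t in (0 : ℝ)..(2 * Real.pi), Φ x t :=
    intervalIntegral.continuous_parametric_intervalIntegral_of_continuous' hcont 0 (2 * Real.pi)
  have h3 : ∫ x in (0 : ℝ)..(2 * Real.pi), Real.exp (a * ‖hat (h s) 0 (pt r x)‖ ^ 2 / lam (r ^ 2)) ≤
      ∫ x in (0 : ℝ)..(2 * Real.pi), ρ / (ρ - k) * ((1 / (2 * Real.pi)) *
        ∫ t in (0 : ℝ)..(2 * Real.pi), Φ x t) := by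
    apply intervalIntegral.integral_mono_on (by positivity) (hsc.intervalIntegrable _ _)
      (((hin.const_mul _).const_mul _).intervalIntegrable _ _)
    intro x _
    exact hpw x
  refine h3.trans ?_
  rw [intervalIntegral.integral_const_mul, intervalIntegral.integral_const_mul]
  apply mul_le_mul_of_nonneg_left _ hK
  rw [MeasureTheory.intervalIntegral_intervalIntegral_swap]
  · have h4 : ∀ t : ℝ, ∫ x in (0 : ℝ)..(2 * Real.pi), Φ x t ≤ C := by
      intro t
      have h5 := hC _ _ (F.1 _ (hl t)).sg r ⟨hr0, hr1⟩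
      rw [hΦ]
      refine (le_of_eq ?_).trans h5
      congr 1
      funext x
      show _ = Real.exp (a * (k / ρ) ^ 2 * ‖hat (h (circleMap 0 ρ t)) 0 (pt r x)‖ ^ 2 / lam (r ^ 2))
      ring_nf
    have h6 : ∫ t in (0 : ℝ)..(2 * Real.pi), ∫ x in (0 : ℝ)..(2 * Real.pi), Φ x t ≤
        ∫ _t in (0 : ℝ)..(2 * Real.pi), C := by
      apply intervalIntegral.integral_mono_on (by positivity)
      · apply Continuous.intervalIntegrable
        exact intervalIntegral.continuous_parametric_intervalIntegral_of_continuous'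
          (f := fun t x => Φ x t) (hcont.comp continuous_swap) 0 (2 * Real.pi)
      · exact continuous_const.intervalIntegrable _ _
      · intro t _
        exact h4 t
    rw [intervalIntegral.integral_const, sub_zero, smul_eq_mul] at h6
    calc 1 / (2 * Real.pi) * ∫ t in (0 : ℝ)..(2 * Real.pi), ∫ x in (0 : ℝ)..(2 * Real.pi), Φ x t
        ≤ 1 / (2 * Real.pi) * (2 * Real.pi * C) := mul_le_mul_of_nonneg_left h6 (by positivity)
      _ = C := by field_simp
  · have h7 : IntegrableOn (Function.uncurry Φ) (Icc 0 (2 * Real.pi) ×ˢ Icc 0 (2 * Real.pi)) :=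
      hcont.continuousOn.integrableOn_compact (isCompact_Icc.prod isCompact_Icc)
    apply h7.mono_set
    rw [uIoc_of_le (by positivity)]
    exact prod_mono Ioc_subset_Icc_self Ioc_subset_Icc_self

end Pool.Agent.W5h47.QC
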